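import Pool.Agent.H16.HE.S8.TH377.Dyn.Main
import Pool.Agent.H16.HE.S8.TH377.Dyn.Box

/-!
# Almost all tuples of vectors are good at some prime
-/

set_option autoImplicit false

namespace Pool.Agent.H16.HE

open Polynomial NumberField IsDedekindDomain Filter Topology Pool.Agent.TH120.Sec
  Pool.Agent.TH377.Sup Pool.Agent.TH377.Dyn

universe u v

/-- flattening -/
noncomputable def fl (X : Type u) {s : ℕ} (d : Fin s → ℕ) :
    (Fin (∑ j, (d j + 2)) → X) ≃ ((j : Fin s) → Fin (d j + 2) → X) where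
  toFun x j i := x (finSigmaFinEquiv ⟨j, i⟩)
  invFun y k := y (finSigmaFinEquiv.symm k).1 (finSigmaFinEquiv.symm k).2
  left_inv x := by
    funext k
    simp
  right_inv y := by
    funext j i
    simp only
    have h : finSigmaFinEquiv.symm (finSigmaFinEquiv (⟨j, i⟩ : (j : Fin s) × Fin (d j + 2))) =
      ⟨j, i⟩ := Equiv.symm_apply_apply _ _
    generalize hz : finSigmaFinEquiv.symm
      (finSigmaFinEquiv (⟨j, i⟩ : (j : Fin s) × Fin (d j + 2))) = z at h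
    subst h
    rfl

lemma card_coord {R : Type u} [Finite R] {n : ℕ} (i₀ : Fin n) (A : Set R) :
    {y : Fin n → R | y i₀ ∈ A}.ncard = A.ncard * Nat.card R ^ (n - 1) := by
  classical
  have h1 : {y : Fin n → R | y i₀ ∈ A} =
      Set.pi Set.univ fun i => if i = i₀ then A else Set.univ := by
    ext y
    constructor
    · intro hy i _
      dsimp only
      split_ifs with h
      · rw [h]
        exact hy
      · trivial
    · intro hy
      have := hy i₀ (Set.mem_univ _)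
      simpa using this
  rw [h1, ← Nat.card_coe_set_eq, Nat.card_congr (Equiv.Set.univPi _), Nat.card_pi,
    ← Finset.mul_prod_erase Finset.univ _ (Finset.mem_univ i₀)]
  simp only [if_true, Nat.card_coe_set_eq]
  congr 1
  have h2 : ∀ i ∈ Finset.univ.erase i₀, (if i = i₀ then A else Set.univ).ncard = Nat.card R := by
    intro i hi
    rw [if_neg (Finset.ne_of_mem_erase hi), Set.ncard_univ]
  rw [Finset.prod_congr rfl h2, Finset.prod_const, Finset.card_erase_of_mem (Finset.mem_univ _),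
    Finset.card_univ, Fintype.card_fin]

section good

variable {K : Type u} [Field K] [NumberField K] (v : HeightOneSpectrum (𝓞 K))

/-- the leading coefficient is a unit -/
def UV (d : ℕ) : Set (Fin (d + 2) → 𝓞 K ⧸ v.asIdeal ^ 2) :=
  {y | pr v (y (Fin.last d).succ) ≠ 0}

lemma norm_two_le : 2 ≤ Ideal.absNorm v.asIdeal := by
  by_contra h
  have h3 : Ideal.absNorm v.asIdeal = 0 ∨ Ideal.absNorm v.asIdeal = 1 := by omega
  rcases h3 with h3 | h3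
  · exact absurd h3 (Pool.Agent.W417.SecC.D2.norm_pos v).ne'
  · rw [Ideal.absNorm_eq_one_iff] at h3
    exact v.isPrime.ne_top h3

lemma UV_card (d : ℕ) : 1 / 2 * ((Ideal.absNorm v.asIdeal : ℝ) ^ 2) ^ (d + 2) ≤
    ((UV v d).ncard : ℝ) := by
  classical
  have hfin := finite_sq v
  set N := Ideal.absNorm v.asIdeal with hN
  have hN2 : 2 ≤ N := norm_two_le v
  set J : Set (𝓞 K ⧸ v.asIdeal ^ 2) := {x | pr v x = 0} with hJ
  have hJc : J.ncard = N := ker_ncard v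
  have h1 : UV v d = {y | y (Fin.last d).succ ∈ Jᶜ} := rfl
  have h2 : J.ncard + Jᶜ.ncard = N ^ 2 := by
    rw [Set.ncard_add_ncard_compl, Pool.Agent.W417.SecC.D2.card_sq]
  rw [h1, card_coord, Pool.Agent.W417.SecC.D2.card_sq, ← hN]
  have h3 : (Jᶜ.ncard : ℝ) = (N : ℝ) ^ 2 - N := by
    rw [hJc] at h2
    have : (N : ℝ) + (Jᶜ.ncard : ℝ) = (N : ℝ) ^ 2 := by exact_mod_cast h2
    linarith
  have h4 : d + 2 - 1 = d + 1 := by omega
  rw [h4]
  push_cast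
  rw [h3, pow_succ ((N : ℝ) ^ 2) (d + 1)]
  have hNr : (2 : ℝ) ≤ N := by exact_mod_cast hN2
  have h5 : (0 : ℝ) ≤ ((N : ℝ) ^ 2) ^ (d + 1) := by positivity
  have h6 : 1 / 2 * (N : ℝ) ^ 2 ≤ (N : ℝ) ^ 2 - N := by nlinarith
  calc 1 / 2 * (((N : ℝ) ^ 2) ^ (d + 1) * (N : ℝ) ^ 2) =
        (1 / 2 * (N : ℝ) ^ 2) * ((N : ℝ) ^ 2) ^ (d + 1) := by ring
    _ ≤ _ := mul_le_mul_of_nonneg_right h6 h5

lemma goodV_real (d : ℕ) (hd : 2 ≤ d) :
    (1 / (4 * d)) * (1 / (Ideal.absNorm v.asIdeal : ℝ) - 1 / (Ideal.absNorm v.asIdeal : ℝ) ^ 2) *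
      ((Ideal.absNorm v.asIdeal : ℝ) ^ 2) ^ (d + 2) ≤ ((GoodV v d).ncard : ℝ) := by
  have hfin := finite_sq v
  have h1 := badV_card2 v d hd
  have h2 : (GoodV v d).ncard + ((GoodV v d)ᶜ).ncard = (Ideal.absNorm v.asIdeal ^ 2) ^ (d + 2) := by
    rw [Set.ncard_add_ncard_compl, Nat.card_fun, Pool.Agent.W417.SecC.D2.card_sq, Nat.card_fin]
  have h3 : ((GoodV v d).ncard : ℝ) + (((GoodV v d)ᶜ).ncard : ℝ) =
      ((Ideal.absNorm v.asIdeal : ℝ) ^ 2) ^ (d + 2) := by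
    exact_mod_cast h2
  have h4 : (1 - (1 / (4 * d)) * (1 / (Ideal.absNorm v.asIdeal : ℝ) -
      1 / (Ideal.absNorm v.asIdeal : ℝ) ^ 2)) * ((Ideal.absNorm v.asIdeal : ℝ) ^ 2) ^ (d + 2) =
      ((Ideal.absNorm v.asIdeal : ℝ) ^ 2) ^ (d + 2) - (1 / (4 * d)) *
      (1 / (Ideal.absNorm v.asIdeal : ℝ) - 1 / (Ideal.absNorm v.asIdeal : ℝ) ^ 2) *
      ((Ideal.absNorm v.asIdeal : ℝ) ^ 2) ^ (d + 2) := by ring
  rw [h4] at h1
  linarith

open Classical in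
/-- the good tuples -/
def GoodT {s : ℕ} (d : Fin s → ℕ) (j₀ : Fin s) :
    Set ((j : Fin s) → Fin (d j + 2) → 𝓞 K ⧸ v.asIdeal ^ 2) :=
  Set.pi Set.univ fun j => if j = j₀ then GoodV v (d j) else UV v (d j)

/-- the share of the good tuples -/
noncomputable def share {s : ℕ} (d : Fin s → ℕ) (j₀ : Fin s) : ℝ :=
  1 / (4 * d j₀) * (1 / 2) ^ s

lemma goodT_card {s : ℕ} (d : Fin s → ℕ) (j₀ : Fin s) (hd : 2 ≤ d j₀) :
    share d j₀ * (1 / (Ideal.absNorm v.asIdeal : ℝ) - 1 / (Ideal.absNorm v.asIdeal : ℝ) ^ 2) *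
      ((Ideal.absNorm v.asIdeal : ℝ) ^ 2) ^ (∑ j, (d j + 2)) ≤ ((GoodT v d j₀).ncard : ℝ) := by
  classical
  have hfin := finite_sq v
  obtain ⟨N, hN⟩ : ∃ N, N = Ideal.absNorm v.asIdeal := ⟨_, rfl⟩
  have hN2 : 2 ≤ N := by rw [hN]; exact norm_two_le v
  have hNr : (2 : ℝ) ≤ N := by exact_mod_cast hN2
  have h1 : (GoodT v d j₀).ncard =
      ∏ j, (if j = j₀ then GoodV v (d j) else UV v (d j)).ncard := by
    rw [GoodT, ← Nat.card_coe_set_eq, Nat.card_congr (Equiv.Set.univPi _), Nat.card_pi]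
    simp only [Nat.card_coe_set_eq]
  have hq0 : 0 ≤ 1 / (N : ℝ) - 1 / (N : ℝ) ^ 2 := by
    rw [sub_nonneg]
    apply one_div_le_one_div_of_le
    · linarith
    · nlinarith
  obtain ⟨q, hq⟩ : ∃ q : ℝ, q = 1 / (N : ℝ) - 1 / (N : ℝ) ^ 2 := ⟨_, rfl⟩
  rw [← hq] at hq0
  have h2 : ∏ j, ((if j = j₀ then 1 / (4 * (d j₀ : ℝ)) * q else 1 / 2) *
      ((N : ℝ) ^ 2) ^ (d j + 2)) ≤ ((GoodT v d j₀).ncard : ℝ) := by
    rw [h1]
    push_cast
    refine Finset.prod_le_prod (fun j _ => ?_) fun j _ => ?_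
    · split_ifs <;> positivity
    · by_cases h : j = j₀
      · subst h
        rw [if_pos rfl, if_pos rfl, hq, hN]
        exact goodV_real v (d j) hd
      · rw [if_neg h, if_neg h, hN]
        exact UV_card v (d j)
  rw [Finset.prod_mul_distrib, Finset.prod_pow_eq_pow_sum,
    ← Finset.mul_prod_erase Finset.univ _ (Finset.mem_univ j₀), if_pos rfl] at h2
  have h3 : ∏ j ∈ Finset.univ.erase j₀, (if j = j₀ then 1 / (4 * (d j₀ : ℝ)) * q else 1 / 2) =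
      (1 / 2) ^ (s - 1) := by
    have h4 : ∀ j ∈ Finset.univ.erase j₀,
        (if j = j₀ then 1 / (4 * (d j₀ : ℝ)) * q else 1 / 2) = (1 / 2 : ℝ) := by
      intro j hj
      rw [if_neg (Finset.ne_of_mem_erase hj)]
    rw [Finset.prod_congr rfl h4, Finset.prod_const, Finset.card_erase_of_mem (Finset.mem_univ _),
      Finset.card_univ, Fintype.card_fin]
  rw [h3] at h2
  rw [← hN, ← hq]
  refine le_trans ?_ h2
  unfold share
  have h5 : ((1 : ℝ) / 2) ^ s ≤ (1 / 2) ^ (s - 1) :=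
    pow_le_pow_of_le_one (by norm_num) (by norm_num) (by omega)
  have h6 : (0 : ℝ) ≤ 1 / (4 * (d j₀ : ℝ)) * q := by positivity
  have h7 : (0 : ℝ) ≤ ((N : ℝ) ^ 2) ^ (∑ j, (d j + 2)) := by positivity
  calc 1 / (4 * (d j₀ : ℝ)) * (1 / 2) ^ s * q * ((N : ℝ) ^ 2) ^ (∑ j, (d j + 2)) =
        (1 / (4 * (d j₀ : ℝ)) * q) * (1 / 2) ^ s * ((N : ℝ) ^ 2) ^ (∑ j, (d j + 2)) := by ring
    _ ≤ _ := mul_le_mul_of_nonneg_right (mul_le_mul_of_nonneg_left h5 h6) h7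

/-- the bad flattened tuples -/
def Bad {s : ℕ} (d : Fin s → ℕ) (j₀ : Fin s) :
    Set (Fin (∑ j, (d j + 2)) → 𝓞 K ⧸ v.asIdeal ^ 2) :=
  (fl _ d ⁻¹' GoodT v d j₀)ᶜ

lemma bad_cardT {s : ℕ} (d : Fin s → ℕ) (j₀ : Fin s) (hd : 2 ≤ d j₀) :
    ((Bad v d j₀).ncard : ℝ) ≤ (1 - share d j₀ * (1 / (Ideal.absNorm v.asIdeal : ℝ) -
      1 / (Ideal.absNorm v.asIdeal : ℝ) ^ 2)) *
      ((Ideal.absNorm v.asIdeal : ℝ) ^ 2) ^ (∑ j, (d j + 2)) := by
  classical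
  have hfin := finite_sq v
  have h1 : (fl _ d ⁻¹' GoodT v d j₀).ncard = (GoodT v d j₀).ncard := by
    rw [← Set.ncard_image_of_injective _ (fl (𝓞 K ⧸ v.asIdeal ^ 2) d).injective,
      Set.image_preimage_eq _ (fl (𝓞 K ⧸ v.asIdeal ^ 2) d).surjective]
  have h2 : (GoodT v d j₀).ncard + (Bad v d j₀).ncard =
      (Ideal.absNorm v.asIdeal ^ 2) ^ (∑ j, (d j + 2)) := by
    rw [← h1, Bad, Set.ncard_add_ncard_compl, Nat.card_fun, Pool.Agent.W417.SecC.D2.card_sq,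
      Nat.card_fin]
  have h3 : ((GoodT v d j₀).ncard : ℝ) + ((Bad v d j₀).ncard : ℝ) =
      ((Ideal.absNorm v.asIdeal : ℝ) ^ 2) ^ (∑ j, (d j + 2)) := by
    exact_mod_cast h2
  have h4 := goodT_card v d j₀ hd
  have h5 : (1 - share d j₀ * (1 / (Ideal.absNorm v.asIdeal : ℝ) -
      1 / (Ideal.absNorm v.asIdeal : ℝ) ^ 2)) *
      ((Ideal.absNorm v.asIdeal : ℝ) ^ 2) ^ (∑ j, (d j + 2)) =
      ((Ideal.absNorm v.asIdeal : ℝ) ^ 2) ^ (∑ j, (d j + 2)) -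
      share d j₀ * (1 / (Ideal.absNorm v.asIdeal : ℝ) -
      1 / (Ideal.absNorm v.asIdeal : ℝ) ^ 2) *
      ((Ideal.absNorm v.asIdeal : ℝ) ^ 2) ^ (∑ j, (d j + 2)) := by ring
  rw [h5]
  linarith

/-- the conditions on a prime for the member `j₀` of a tuple -/
def Fit {s : ℕ} {d : Fin s → ℕ} (c : (j : Fin s) → Fin (d j + 2) → 𝓞 K) (j₀ : Fin s) : Prop :=
  c j₀ 0 ∈ v.asIdeal ∧ c j₀ 0 ∉ v.asIdeal ^ 2 ∧ IrrMod v (d j₀) (fun i => c j₀ i.succ) ∧
    ∀ j, c j (Fin.last (d j)).succ ∉ v.asIdeal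

lemma fit_of {s : ℕ} {d : Fin s → ℕ} (c : (j : Fin s) → Fin (d j + 2) → 𝓞 K) (j₀ : Fin s)
    (h : (fun j => red (v.asIdeal ^ 2) (d j + 2) (c j)) ∈ GoodT v d j₀) : Fit v c j₀ := by
  classical
  have h1 : ∀ j, red (v.asIdeal ^ 2) (d j + 2) (c j) ∈
      (if j = j₀ then GoodV v (d j) else UV v (d j)) := fun j => h j (Set.mem_univ j)
  have h2 := h1 j₀
  rw [if_pos rfl] at h2
  obtain ⟨g1, g2, g3⟩ := good_iff v (d j₀) (c j₀) h2
  refine ⟨g1, g2, g3, fun j => ?_⟩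
  by_cases hj : j = j₀
  · subst hj
    exact g3.1
  · have h3 := h1 j
    rw [if_neg hj] at h3
    exact fun h4 => h3 (Ideal.Quotient.eq_zero_iff_mem.2 h4)

end good

/-- almost all tuples are fit at a prime that does not divide `D` -/
theorem dz_tuple (K : Type u) [Field K] [NumberField K] {s : ℕ} (d : Fin s → ℕ) (j₀ : Fin s)
    (hd : 2 ≤ d j₀) (D : 𝓞 K) (hD : D ≠ 0) :
    DZ (∑ j, (d j + 2)) {c : Fin (∑ j, (d j + 2)) → 𝓞 K |
      ¬ ∃ v : HeightOneSpectrum (𝓞 K), D ∉ v.asIdeal ∧ Fit v (fl (𝓞 K) d c) j₀} := by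
  have hd2 : (2 : ℝ) ≤ d j₀ := by exact_mod_cast hd
  have hδ0 : (0 : ℝ) < share d j₀ := by unfold share; positivity
  have hδ1 : share d j₀ ≤ 1 := by
    unfold share
    have h1 : 1 / (4 * (d j₀ : ℝ)) ≤ 1 := by
      rw [div_le_one (by linarith)]
      linarith
    have h2 : ((1 : ℝ) / 2) ^ s ≤ 1 := pow_le_one₀ (by norm_num) (by norm_num)
    exact mul_le_one₀ h1 (by positivity) h2
  refine dz_of_supply (∑ j, (d j + 2)) (fun v => D ∉ v.asIdeal) (fun v => Bad v d j₀)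
    (share d j₀) ?_ (fun v _ => bad_cardT v d j₀ hd) _ ?_
  · intro ε hε
    obtain ⟨T, hT, hTε⟩ := supply_split (K := K) 2 Nat.prime_two D hD
      (share d j₀) hδ0 hδ1 ε hε
    exact ⟨T, fun v hv => (hT v hv).1, hTε⟩
  · intro c hc v hv hgood
    exact hc ⟨v, hv, fit_of v _ j₀ hgood⟩

/-- tuples with small coordinates -/
def BoxT {K : Type u} [Field K] {J : Type v} (ω : Module.Basis J ℤ (𝓞 K)) {s : ℕ}
    (d : Fin s → ℕ) (H : ℕ) : Set ((j : Fin s) → Fin (d j + 2) → 𝓞 K) :=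
  {c | ∀ j i t, |ω.repr (c j i) t| ≤ (H : ℤ)}

lemma box_fl {K : Type u} [Field K] {J : Type v} (ω : Module.Basis J ℤ (𝓞 K)) {s : ℕ}
    (d : Fin s → ℕ) (H : ℕ) : fl (𝓞 K) d ⁻¹' BoxT ω d H = BoxD ω (∑ j, (d j + 2)) H := by
  ext c
  constructor
  · intro h k t
    have h1 := h (finSigmaFinEquiv.symm k).1 (finSigmaFinEquiv.symm k).2 t
    have h2 : fl (𝓞 K) d c (finSigmaFinEquiv.symm k).1 (finSigmaFinEquiv.symm k).2 = c k := by
      change c (finSigmaFinEquiv ⟨(finSigmaFinEquiv.symm k).1, (finSigmaFinEquiv.symm k).2⟩) = c k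
      rw [Sigma.eta, Equiv.apply_symm_apply]
    rwa [h2] at h1
  · intro h j i t
    exact h _ t

lemma ncard_preim {X Y : Type u} (e : X ≃ Y) (S : Set Y) : (e ⁻¹' S).ncard = S.ncard := by
  rw [← Set.ncard_image_of_injective _ e.injective, Set.image_preimage_eq _ e.surjective]

lemma boxT_finite {K : Type u} [Field K] {J : Type v} [Fintype J] (ω : Module.Basis J ℤ (𝓞 K))
    {s : ℕ} (d : Fin s → ℕ) (H : ℕ) : (BoxT ω d H).Finite := by
  apply Set.finite_of_ncard_ne_zero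
  rw [← ncard_preim (fl (𝓞 K) d), box_fl, box_card]
  positivity

/-- the tuples which are not fit for some member -/
def Unfit (K : Type u) [Field K] [NumberField K] {s : ℕ} (d : Fin s → ℕ) (D : 𝓞 K) :
    Set ((j : Fin s) → Fin (d j + 2) → 𝓞 K) :=
  {c | ∃ j₀, ¬ ∃ v : HeightOneSpectrum (𝓞 K), D ∉ v.asIdeal ∧ Fit v c j₀}

/-- density zero in boxes, for tuples -/
theorem box_tuple {K : Type u} [Field K] [NumberField K] {s : ℕ} (d : Fin s → ℕ)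
    (hd : ∀ j, 2 ≤ d j) (D : 𝓞 K) (hD : D ≠ 0) {J : Type v} [Fintype J]
    (ω : Module.Basis J ℤ (𝓞 K)) :
    Tendsto (fun H : ℕ => ((Unfit K d D ∩ BoxT ω d H).ncard : ℝ) / ((BoxT ω d H).ncard : ℝ))
      atTop (𝓝 0) := by
  classical
  have h1 : ∀ j₀ : Fin s, Tendsto (fun H : ℕ => (({c | ¬ ∃ v : HeightOneSpectrum (𝓞 K),
      D ∉ v.asIdeal ∧ Fit v c j₀} ∩ BoxT ω d H).ncard : ℝ) / ((BoxT ω d H).ncard : ℝ))
      atTop (𝓝 0) := by
    intro j₀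
    have h2 := box_tendsto _ (dz_tuple K d j₀ (hd j₀) D hD) ω
    refine h2.congr fun H => ?_
    rw [← box_fl ω d H, ncard_preim (fl (𝓞 K) d) (BoxT ω d H),
      ← ncard_preim (fl (𝓞 K) d) ({c | ¬ ∃ v : HeightOneSpectrum (𝓞 K),
      D ∉ v.asIdeal ∧ Fit v c j₀} ∩ BoxT ω d H), Set.preimage_inter]
    rfl
  have h3 : Tendsto (fun H : ℕ => ∑ j₀ : Fin s, (({c | ¬ ∃ v : HeightOneSpectrum (𝓞 K),
      D ∉ v.asIdeal ∧ Fit v c j₀} ∩ BoxT ω d H).ncard : ℝ) / ((BoxT ω d H).ncard : ℝ))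
      atTop (𝓝 0) := by
    have := tendsto_finset_sum Finset.univ fun j₀ _ => h1 j₀
    simpa using this
  refine squeeze_zero (fun H => by positivity) (fun H => ?_) h3
  rw [← Finset.sum_div]
  refine div_le_div_of_nonneg_right ?_ (Nat.cast_nonneg _)
  have h4 : Unfit K d D ∩ BoxT ω d H = ⋃ j₀ ∈ (Finset.univ : Finset (Fin s)),
      ({c | ¬ ∃ v : HeightOneSpectrum (𝓞 K), D ∉ v.asIdeal ∧ Fit v c j₀} ∩ BoxT ω d H) := by
    ext c
    simp only [Unfit, Set.mem_inter_iff, Set.mem_setOf_eq, Finset.mem_univ, Set.iUnion_true,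
      Set.mem_iUnion]
    constructor
    · rintro ⟨⟨j, hj⟩, hc⟩
      exact ⟨j, hj, hc⟩
    · rintro ⟨j, hj, hc⟩
      exact ⟨⟨j, hj⟩, hc⟩
  rw [h4]
  exact_mod_cast Finset.set_ncard_biUnion_le _ _

end Pool.Agent.H16.HE
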