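import Pool.Agent.H16.HE.S8.TH377.Dyn.Henon

/-!
# Words in Hénon maps
-/

set_option autoImplicit false

namespace Pool.Agent.H16.HE

open Polynomial NumberField IsDedekindDomain Pool.Agent.TH377.Dyn

universe u v w

section orbit

variable {α : Type*} {X : Type*}

/-- the orbit of `P` under the periodic continuation of the word `l` -/
def orb (step : X → α → X) (l : List α) (hl : 0 < l.length) (P : X) : ℕ → X
  | 0 => P
  | k + 1 => step (orb step l hl P k) (l[k % l.length]'(Nat.mod_lt _ hl))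

lemma orb_take (step : X → α → X) (l : List α) (hl : 0 < l.length) (P : X) (k : ℕ)
    (hk : k ≤ l.length) : orb step l hl P k = (l.take k).foldl step P := by
  induction k with
  | zero => simp [orb]
  | succ k ih =>
    have hk' : k < l.length := hk
    rw [List.take_succ_eq_append_getElem hk', List.foldl_append, ← ih hk'.le]
    simp only [orb, List.foldl_cons, List.foldl_nil, Nat.mod_eq_of_lt hk']

lemma orb_periodic (step : X → α → X) (l : List α) (hl : 0 < l.length) (P : X)
    (hP : l.foldl step P = P) (k : ℕ) : orb step l hl P (k + l.length) = orb step l hl P k := by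
  induction k with
  | zero =>
    rw [zero_add, orb_take step l hl P _ le_rfl, List.take_length, hP]
    rfl
  | succ k ih =>
    have e : k + 1 + l.length = (k + l.length) + 1 := by ring
    rw [e]
    simp only [orb, ih, Nat.add_mod_right]

end orbit

section local_

variable {L : Type u} {Γ : Type v} [Field L] [LinearOrderedCommGroupWithZero Γ]
  (V : Valuation L Γ)

/-- a periodic solution of `s_{k+2} = F_k(s_{k+1})/b_k - δ_k s_k` is integral, and where `b_k` is not
a unit the members are close to roots of `F_k` -/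
theorem word_local (F : ℕ → L[X]) (hF : ∀ k i, V ((F k).coeff i) ≤ 1)
    (hl : ∀ k, V (F k).leadingCoeff = 1) (hd : ∀ k, 2 ≤ (F k).natDegree) (b : ℕ → L)
    (hb : ∀ k, V (b k) ≤ 1) (hb0 : ∀ k, b k ≠ 0) (δ : ℕ → L) (hδ : ∀ k, V (δ k) ≤ 1)
    (s : ℕ → L) (hs : ∀ k, s (k + 2) = (b k)⁻¹ * (F k).eval (s (k + 1)) - δ k * s k) (n : ℕ)
    (hn : 0 < n) (hper : ∀ k, s (k + n) = s k) :
    (∀ k, V (s k) ≤ 1) ∧ ∀ k, V (b k) < 1 → V ((F k).eval (s (k + 1))) < 1 := by
  have hVb : ∀ k, V (b k) ≠ 0 := fun k => (Valuation.ne_zero_iff V).2 (hb0 k)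
  have hb1 : ∀ k, 1 ≤ (V (b k))⁻¹ := fun k => (one_le_inv₀ (zero_lt_iff.2 (hVb k))).2 (hb k)
  -- a member of maximal size
  obtain ⟨k, hk⟩ : ∃ k, ∀ j, V (s j) ≤ V (s (k + 1)) := by
    obtain ⟨k, -, hk⟩ := (Finset.range n).exists_max_image (fun k => V (s k))
      ⟨0, Finset.mem_range.2 hn⟩
    have hmod : ∀ j, s j = s (j % n) := by
      intro j
      have h1 : ∀ t i, s (i + t * n) = s i := by
        intro t
        induction t with
        | zero => intro i; rw [zero_mul, add_zero]
        | succ t ih => intro i; rw [Nat.succ_mul, ← add_assoc, hper, ih]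
      conv_lhs => rw [← Nat.mod_add_div' j n]
      rw [h1]
    refine ⟨k + n - 1, fun j => ?_⟩
    have h2 : k + n - 1 + 1 = k + n := by omega
    rw [h2, hper, hmod j]
    exact hk _ (Finset.mem_range.2 (Nat.mod_lt _ hn))
  have hint : ∀ j, V (s j) ≤ 1 := by
    intro j
    refine (hk j).trans ?_
    by_contra h
    rw [not_le] at h
    have h1 : V ((b k)⁻¹ * (F k).eval (s (k + 1))) =
        (V (b k))⁻¹ * V (s (k + 1)) ^ (F k).natDegree := by
      rw [map_mul, map_inv₀, val_eval V (F k) (hF k) (hl k) _ h]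
    have h2 : V (s (k + 1)) < V ((b k)⁻¹ * (F k).eval (s (k + 1))) := by
      rw [h1]
      calc V (s (k + 1)) = V (s (k + 1)) ^ 1 := (pow_one _).symm
        _ < V (s (k + 1)) ^ (F k).natDegree := pow_lt_pow_right₀ h (hd k)
        _ = 1 * V (s (k + 1)) ^ (F k).natDegree := (one_mul _).symm
        _ ≤ _ := mul_le_mul_left (hb1 k) _
    have h3 : V (δ k * s k) < V ((b k)⁻¹ * (F k).eval (s (k + 1))) := by
      rw [map_mul]
      calc V (δ k) * V (s k) ≤ 1 * V (s k) := mul_le_mul_left (hδ k) _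
        _ = V (s k) := one_mul _
        _ ≤ V (s (k + 1)) := hk k
        _ < _ := h2
    have h4 : V (s (k + 2)) = V ((b k)⁻¹ * (F k).eval (s (k + 1))) := by
      rw [hs, sub_eq_add_neg, Valuation.map_add_eq_of_lt_left V (by rwa [Valuation.map_neg])]
    have h5 := hk (k + 2)
    rw [h4] at h5
    exact absurd h5 (not_le.2 h2)
  refine ⟨hint, fun k hbk => ?_⟩
  have h1 : (F k).eval (s (k + 1)) = b k * (s (k + 2) + δ k * s k) := by
    rw [hs k]
    have := hb0 k
    field_simp
    ring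
  rw [h1, map_mul]
  have h2 : V (s (k + 2) + δ k * s k) ≤ 1 := by
    refine (Valuation.map_add V _ _).trans (max_le (hint (k + 2)) ?_)
    rw [map_mul]
    exact mul_le_one' (hδ k) (hint k)
  calc V (b k) * V (s (k + 2) + δ k * s k) ≤ V (b k) * 1 := mul_le_mul_right h2 _
    _ = V (b k) := mul_one _
    _ < 1 := hbk

end local_

variable {K : Type u} {L : Type v} [Field K] [NumberField K] [Field L] [NumberField L]
  [Algebra K L]

/-- one step -/
noncomputable def step {α : Type w} (b : α → 𝓞 K) (F : α → (𝓞 K)[X]) (δ : α → K) (Q : L × L)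
    (a : α) : L × L :=
  (Q.2, (algebraMap (𝓞 K) L (b a))⁻¹ * ((F a).map (algebraMap (𝓞 K) L)).eval Q.2 -
    algebraMap K L (δ a) * Q.1)

/-- words in Hénon maps `(x, y) ↦ (y, F_a(y)/b_a - δ_a x)` -/
theorem word_dvd {α : Type w} (v : HeightOneSpectrum (𝓞 K)) (b : α → 𝓞 K) (F : α → (𝓞 K)[X])
    (δ : α → K) (l : List α) (hb0 : ∀ a ∈ l, b a ≠ 0) (hd : ∀ a ∈ l, 2 ≤ (F a).natDegree)
    (hlc : ∀ a ∈ l, (F a).leadingCoeff ∉ v.asIdeal)
    (hδ : ∀ a ∈ l, ∃ r D : 𝓞 K, D ∉ v.asIdeal ∧ (D : K) * δ a = r) (P : L × L)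
    (hP : l.foldl (step b F δ) P = P) (a : α) (ha : a ∈ l) (hba : b a ∈ v.asIdeal)
    (hirr : Irreducible ((F a).map (Ideal.Quotient.mk v.asIdeal))) :
    (F a).natDegree ∣ Module.finrank K L := by
  have hinj : Function.Injective (algebraMap (𝓞 K) L) :=
    FaithfulSMul.algebraMap_injective (𝓞 K) L
  have hl : 0 < l.length := List.length_pos_of_mem ha
  set Q : ℕ → L × L := orb (step b F δ) l hl P with hQ
  let g : ℕ → α := fun k => l[k % l.length]'(Nat.mod_lt _ hl)
  have hg : ∀ k, g k ∈ l := fun k => List.getElem_mem _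
  have hQs : ∀ k, Q (k + 1) = step b F δ (Q k) (g k) := fun k => rfl
  have hQp : ∀ k, Q (k + l.length) = Q k := orb_periodic _ l hl P hP
  set s : ℕ → L := fun k => (Q k).1 with hs
  have h1 : ∀ k, s (k + 1) = (Q k).2 := fun k => by
    change (Q (k + 1)).1 = _
    rw [hQs]
    rfl
  have h2 : ∀ k, s (k + 2) = (algebraMap (𝓞 K) L (b (g k)))⁻¹ *
      ((F (g k)).map (algebraMap (𝓞 K) L)).eval (s (k + 1)) -
        algebraMap K L (δ (g k)) * s k := by
    intro k
    rw [h1 (k + 1), h1 k, hQs]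
    rfl
  have h3 : ∀ k, s (k + l.length) = s k := fun k => congrArg Prod.fst (hQp k)
  obtain ⟨t, ht, hta⟩ := List.getElem_of_mem ha
  have hgt : g t = a := by
    change l[t % l.length]'_ = a
    simp only [Nat.mod_eq_of_lt ht]
    exact hta
  refine dvd_of_forall v (F a) (hlc a ha) hirr (s (t + 1)) fun q => ?_
  have e1 : ∀ k, (ovr v q).valuation L
      ((F (g k)).map (algebraMap (𝓞 K) L)).leadingCoeff = 1 := by
    intro k
    rw [leadingCoeff_map_of_injective hinj]
    exact val_eq_one v q _ (hlc _ (hg k))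
  have e2 : ∀ k, 2 ≤ ((F (g k)).map (algebraMap (𝓞 K) L)).natDegree := by
    intro k
    rw [natDegree_map_eq_of_injective hinj]
    exact hd _ (hg k)
  have e3 : ∀ k, (ovr v q).valuation L (algebraMap (𝓞 K) L (b (g k))) ≤ 1 := by
    intro k
    rw [IsScalarTower.algebraMap_apply (𝓞 K) (𝓞 L) L]
    exact (ovr v q).valuation_le_one _
  have e4 : ∀ k, algebraMap (𝓞 K) L (b (g k)) ≠ 0 := by
    intro k
    rw [Ne, map_eq_zero_iff _ hinj]
    exact hb0 _ (hg k)
  have e5 : ∀ k, (ovr v q).valuation L (algebraMap K L (δ (g k))) ≤ 1 := by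
    intro k
    obtain ⟨r, D, hD, hr⟩ := hδ _ (hg k)
    have h4 : algebraMap (𝓞 K) L D * algebraMap K L (δ (g k)) = algebraMap (𝓞 K) L r := by
      rw [IsScalarTower.algebraMap_apply (𝓞 K) K L, IsScalarTower.algebraMap_apply (𝓞 K) K L,
        ← map_mul]
      exact congrArg _ hr
    have h5 : (ovr v q).valuation L (algebraMap K L (δ (g k))) =
        (ovr v q).valuation L (algebraMap (𝓞 K) L r) := by
      rw [← h4, map_mul, val_eq_one v q D hD, one_mul]
    rw [h5, IsScalarTower.algebraMap_apply (𝓞 K) (𝓞 L) L]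
    exact (ovr v q).valuation_le_one _
  have key := word_local ((ovr v q).valuation L)
    (fun k => (F (g k)).map (algebraMap (𝓞 K) L)) (fun k => coeff_le v q _) e1 e2
    (fun k => algebraMap (𝓞 K) L (b (g k))) e3 e4 (fun k => algebraMap K L (δ (g k))) e5 s h2
    l.length hl h3
  refine ⟨key.1 _, ?_⟩
  have h4 := key.2 t (by
    change (ovr v q).valuation L (algebraMap (𝓞 K) L (b (g t))) < 1
    rw [hgt]
    exact val_lt_one v q _ hba)
  simp only [hgt] at h4
  exact h4

end Pool.Agent.H16.HE
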